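import Pool.Agent.helper54.V3.SpecE

set_option autoImplicit false

open Complex Metric Set Filter Topology MeasureTheory

namespace V3

theorem GSF : GSF_stmt := by
  intro P s R hs hsep hR
  by_contra hinf
  have hinf' : P.Infinite := hinf
  have hsub : P ⊆ closedBall (0 : ℂ) R := by
    intro p hp
    rw [mem_closedBall, dist_zero_right]
    exact hR p hp
  obtain ⟨x, -, hx⟩ := hinf'.exists_accPt_of_subset_isCompact (isCompact_closedBall (0 : ℂ) R) hsub
  rw [accPt_iff_nhds] at hx
  obtain ⟨y, ⟨hy1, hyP⟩, hyx⟩ := hx (ball x (s / 2)) (ball_mem_nhds x (by positivity))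
  have hyx' : 0 < dist y x := dist_pos.2 hyx
  obtain ⟨z, ⟨hz1, hzP⟩, hzx⟩ := hx (ball x (dist y x)) (ball_mem_nhds x hyx')
  rw [mem_ball] at hy1 hz1
  have hne : y ≠ z := by
    rintro rfl
    exact lt_irrefl _ hz1
  have h1 := hsep y hyP z hzP hne
  rw [← dist_eq_norm] at h1
  have h2 := dist_triangle_right y z x
  linarith

end V3
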