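import Pool.Agent.helper54.V3.SpecE

set_option autoImplicit false

open Complex Metric Set Filter Topology MeasureTheory

namespace V3

theorem PPE (hPCO : PCO_stmt) : PPE_stmt := by
  intro P A g B v q θ t hL ht hP hA
  obtain ⟨s, hs, hsep⟩ := hL.sep
  obtain ⟨hclosed, hcount, -⟩ := hPCO P s hs hsep
  have hzero := hL.zero
  have htP : t ∈ P := by
    rw [hP]
    exact ⟨1, by simp⟩
  have hv : ∀ x, v (x + t) = v x := by
    intro x
    have h := hL.vA t htP x
    rw [hA t htP, one_mul, one_mul, add_comm] at h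
    exact h
  have hBp : ∀ p ∈ P, ∀ x ∉ P, B (x + p) = B x := by
    intro p hp x hx
    have h := hL.BA p hp x hx
    rw [hA p hp, one_pow, one_mul, one_mul, add_comm] at h
    exact h
  have hadd : ∀ x, x ∉ P → x + t ∉ P := by
    intro x hx h
    apply hx
    rw [hP] at h ⊢
    obtain ⟨n, hn⟩ := h
    refine ⟨n - 1, ?_⟩
    push_cast
    have hn' : (n : ℂ) * t = x + t := hn
    linear_combination hn'
  have hopen : IsOpen Pᶜ := hclosed.isOpen_compl
  have hdB : ∀ x ∉ P, deriv B (x + t) = deriv B x := by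
    intro x hx
    have h1 : deriv (fun y => B (y + t)) x = deriv B (x + t) := deriv_comp_add_const B t x
    rw [← h1]
    apply Filter.EventuallyEq.deriv_eq
    have h2 : ∀ᶠ y in 𝓝 x, y ∈ Pᶜ := hopen.mem_nhds hx
    filter_upwards [h2] with y hy
    exact hBp t htP y hy
  have hdv : ∀ x, deriv v (x + t) = deriv v x := by
    intro x
    have h1 : deriv (fun y => v (y + t)) x = deriv v (x + t) := deriv_comp_add_const v t x
    rw [← h1]
    congr 1
    funext y
    exact hv y
  have hqc : Continuous q := hL.qd.continuous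
  have hdense : Dense Pᶜ := hcount.dense_compl ℝ
  have hq : ∀ x, q (x + t) = q x := by
    have h1 : Set.EqOn (fun x => q (x + t)) q Pᶜ := by
      intro x hx
      show q (x + t) = q x
      rw [hL.qB x hx, hL.qB (x + t) (hadd x hx), hv, hdB x hx, hdv, hBp t htP x hx]
    have h2 : (fun x => q (x + t)) = q :=
      Continuous.ext_on hdense (hqc.comp (continuous_id.add continuous_const)) hqc h1
    intro x
    exact congrFun h2 x
  refine ⟨hv, hq, fun x hx => hBp t htP x hx, ?_⟩
  intro p hp
  obtain ⟨h0, h0a, h0e⟩ := hL.Bp 0 hzero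
  obtain ⟨hp', hpa, hpe⟩ := hL.Bp p hp
  -- translate the expansion at p
  have htend : Tendsto (fun x : ℂ => x + p) (𝓝[≠] 0) (𝓝[≠] p) := by
    apply tendsto_nhdsWithin_of_tendsto_nhds_of_eventually_within
    · have : Tendsto (fun x : ℂ => x + p) (𝓝 0) (𝓝 (0 + p)) :=
        (continuous_id.add continuous_const).tendsto 0
      rw [zero_add] at this
      exact this.mono_left nhdsWithin_le_nhds
    · filter_upwards [self_mem_nhdsWithin] with x hx
      intro h
      apply hx
      have h' : x + p = p := h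
      show x = 0
      linear_combination h'
  have hpe' := htend.eventually hpe
  have hnP : ∀ᶠ x in 𝓝[≠] (0 : ℂ), x ∉ P := by
    have h1 : ∀ᶠ x in 𝓝[≠] (0 : ℂ), x ∈ ball (0 : ℂ) s :=
      mem_nhdsWithin_of_mem_nhds (ball_mem_nhds 0 hs)
    filter_upwards [h1, self_mem_nhdsWithin] with x hx hx0 hxP
    have h2 := hsep 0 hzero x hxP (fun h => hx0 h.symm)
    rw [mem_ball, dist_eq_norm, sub_zero] at hx
    rw [zero_sub, norm_neg] at h2
    exact absurd hx (not_lt.2 h2)
  have heq : ∀ᶠ x in 𝓝[≠] (0 : ℂ), g p + x * hp' (x + p) = g 0 + x * h0 x := by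
    filter_upwards [h0e, hpe', hnP, self_mem_nhdsWithin] with x e0 ep hx hx0
    have hx1 : x ≠ 0 := hx0
    rw [hBp p hp x hx, e0] at ep
    rw [sub_zero, add_sub_cancel_right] at ep
    have e3 : x * (1 / x ^ 2 + g 0 / x + h0 x) = x * (1 / x ^ 2 + g p / x + hp' (x + p)) := by
      rw [ep]
    have e4 : x * (1 / x ^ 2 + g 0 / x + h0 x) = 1 / x + g 0 + x * h0 x := by
      field_simp
    have e5 : x * (1 / x ^ 2 + g p / x + hp' (x + p)) = 1 / x + g p + x * hp' (x + p) := by
      field_simp
    rw [e4, e5] at e3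
    linear_combination -e3
  have hl1 : Tendsto (fun x : ℂ => g p + x * hp' (x + p)) (𝓝[≠] 0) (𝓝 (g p + 0 * hp' (0 + p))) := by
    have hc : ContinuousAt (fun x : ℂ => g p + x * hp' (x + p)) 0 := by
      have h1 : ContinuousAt hp' (0 + p) := by rw [zero_add]; exact hpa.continuousAt
      have h2 : ContinuousAt (fun x : ℂ => hp' (x + p)) 0 :=
        ContinuousAt.comp (f := fun x : ℂ => x + p) h1 (continuous_id.add continuous_const).continuousAt
      exact continuousAt_const.add (continuousAt_id.mul h2)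
    exact hc.tendsto.mono_left nhdsWithin_le_nhds
  have hl2 : Tendsto (fun x : ℂ => g 0 + x * h0 x) (𝓝[≠] 0) (𝓝 (g 0 + 0 * h0 0)) := by
    have hc : ContinuousAt (fun x : ℂ => g 0 + x * h0 x) 0 :=
      continuousAt_const.add (continuousAt_id.mul h0a.continuousAt)
    exact hc.tendsto.mono_left nhdsWithin_le_nhds
  have hl3 := hl1.congr' heq
  have := tendsto_nhds_unique hl3 hl2
  simpa using this

end V3
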