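import Pool.Agent.helper54.V3.SpecT

set_option autoImplicit false

open Complex Metric Set Filter Topology MeasureTheory

namespace V3

theorem TMX : TMX_stmt := by
  intro U f F a r r' hr hrr' hf hF hs
  rw [Metric.tendstoUniformlyOn_iff] at hs ⊢
  intro ε hε
  filter_upwards [hf, hs (ε / 2) (by positivity)] with m hm hm2 x hx
  have hsub : closedBall a r ⊆ ball a r' := closedBall_subset_ball hrr'
  have hd : DifferentiableOn ℂ (fun z => F z - f m z) (ball a r') := hF.sub hm
  have hcl : closure (ball a r) = closedBall a r := closure_ball a hr.ne'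
  have hdc : DiffContOnCl ℂ (fun z => F z - f m z) (ball a r) := by
    refine ⟨hd.mono (ball_subset_ball hrr'.le), ?_⟩
    rw [hcl]
    exact hd.continuousOn.mono hsub
  have h := Complex.norm_le_of_forall_mem_frontier_norm_le (C := ε / 2) isBounded_ball hdc
    (fun z hz => by
      rw [frontier_ball a hr.ne'] at hz
      have := hm2 z hz
      rw [dist_eq_norm] at this
      exact this.le) (z := x) (by rw [hcl]; exact hx)
  rw [dist_eq_norm]
  have h' : ‖F x - f m x‖ ≤ ε / 2 := h
  linarith

end V3
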